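import Pool.Agent.H21.PC.Tree
import Pool.Agent.H21.PC.CellN
import Pool.Agent.H21.LP.Crt
import Pool.Agent.H21.LP.Main
import Pool.Agent.H21.CG.Gap

/-!
MP_8923e7_nt, PC: of any three pairwise coprime moduli one is such that every pair of reduced residue classes is the pair
of classes of two consecutive primes, infinitely often, with the gap in every long interval.
-/

namespace Pool.Agent.H21.PC

open Finset Pool.Agent.H30.CP Pool.Agent.H21.CG

private theorem cop_of_dvd {a b n : ℤ} (h : IsCoprime a n) (hd : n ∣ b - a) : IsCoprime b n := by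
  obtain ⟨t, ht⟩ := hd
  have e : b = a + n * t := by linarith
  rw [e]
  exact h.add_mul_left_left t

theorem badP_false (t : ℕ) (ht : 6 < 2 ^ t) (Q : Fin t → ℕ) (hQ : ∀ i, 0 < Q i)
    (hQQ : ∀ i j, i ≠ j → Nat.Coprime (Q i) (Q j))
    (a b : Fin t → ℤ) (ha : ∀ i, IsCoprime (a i) (Q i : ℤ)) (hb : ∀ i, IsCoprime (b i) (Q i : ℤ))
    (hbad : ∀ i, BadP (Q i) (a i) (b i)) : False := by
  classical
  obtain ⟨mm, hmm⟩ : ∃ mm : ℕ, mm = Fintype.card (Lf t) := ⟨_, rfl⟩
  have hmm1 : 1 ≤ mm := by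
    rw [hmm, card_Lf]
    exact Nat.one_le_two_pow
  obtain ⟨sc, hsc, hcells⟩ := cellsN mm hmm1
  set K : ℕ := mm * sc with hK
  set M : ℕ := ∏ i, Q i with hM
  have hM0 : 0 < M := Finset.prod_pos fun i _ => hQ i
  set W : ℕ := M * K.factorial with hW
  have hW0 : 0 < W := Nat.mul_pos hM0 (Nat.factorial_pos K)
  have hW0Z : (0 : ℤ) < W := by exact_mod_cast hW0
  have hQM : ∀ i, Q i ∣ M := fun i => Finset.dvd_prod_of_mem Q (mem_univ i)
  have hMW : M ∣ W := dvd_mul_right _ _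
  choose u hu1 hu2 hu3 hu4 using fun i => Pool.Agent.H21.LP.crt_exists 1 t Q
    (fun i => Nat.coprime_one_right (Q i)) hQQ K i
  set B0 : Finset ℤ := (range sc).image (fun i : ℕ => (W : ℤ) * (i : ℤ)) with hB0
  have hB0W : ∀ β ∈ B0, (W : ℤ) ∣ β := by
    intro β hβ
    rw [hB0, mem_image] at hβ
    obtain ⟨i, _, rfl⟩ := hβ
    exact dvd_mul_right _ _
  have hB0card : B0.card = sc := by
    rw [hB0, card_image_of_injective, card_range]
    intro i j hij
    have h1 : (W : ℤ) * (i : ℤ) = (W : ℤ) * (j : ℤ) := hij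
    exact_mod_cast mul_left_cancel₀ hW0Z.ne' h1
  -- the data indexed by natural numbers
  let Q' : ℕ → ℕ := fun i => if h : i < t then Q ⟨i, h⟩ else 1
  let a' : ℕ → ℤ := fun i => if h : i < t then a ⟨i, h⟩ else 0
  let b' : ℕ → ℤ := fun i => if h : i < t then b ⟨i, h⟩ else 0
  let u' : ℕ → ℤ := fun i => if h : i < t then u ⟨i, h⟩ else 0
  have hQ' : ∀ i (h : i < t), Q' i = Q ⟨i, h⟩ := fun i h => dif_pos h
  have ha' : ∀ i (h : i < t), a' i = a ⟨i, h⟩ := fun i h => dif_pos h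
  have hb' : ∀ i (h : i < t), b' i = b ⟨i, h⟩ := fun i h => dif_pos h
  have hu' : ∀ i (h : i < t), u' i = u ⟨i, h⟩ := fun i h => dif_pos h
  obtain ⟨pos, ⟨D, N0, hpot⟩, hposf, hposD⟩ :=
    pot1_exists t Q' a' b' u' (fun i hi => by rw [hQ' i hi, ha' i hi, hb' i hi]; exact hbad _)
      W hW0 (fun i hi => by rw [hQ' i hi]; exact (hQM _).trans hMW)
      (fun i hi => by rw [hQ' i hi, hu' i hi]; exact hu1 _)
      (fun i hi j hj hji => by
        rw [hQ' j hj, hu' i hi]
        exact hu2 ⟨i, hi⟩ ⟨j, hj⟩ (fun h => hji (congrArg Fin.val h)))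
      B0 hB0W t le_rfl
  set V : Lf t → Finset ℤ := fun d => cell B0 (pos d) with hV
  -- the elements of the cells
  have hVf : ∀ d, ∀ h ∈ V d, ∃ f : Fin t → Bool,
      (W : ℤ) ∣ h - ∑ i, u i * (if f i then b i - a i else 0) := by
    intro d h hh
    obtain ⟨β, hβ, rfl⟩ := mem_cell.1 hh
    obtain ⟨f, hf⟩ := hposf d
    refine ⟨fun i => f i, ?_⟩
    have h1 : ∑ i ∈ range t, u' i * (if f i then b' i - a' i else 0) =
        ∑ i : Fin t, u i * (if f i then b i - a i else 0) := by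
      rw [Finset.sum_range]
      refine Finset.sum_congr rfl fun i _ => ?_
      rw [hu' i i.2, ha' i i.2, hb' i i.2]
    rw [h1] at hf
    have e : β + pos d - ∑ i : Fin t, u i * (if f i then b i - a i else 0) =
        β + (pos d - ∑ i : Fin t, u i * (if f i then b i - a i else 0)) := by ring
    rw [e]
    exact dvd_add (hB0W β hβ) hf
  -- the class of `N`
  set C : ℤ := ∑ i, a i * u i with hC
  have hCQ : ∀ i, (Q i : ℤ) ∣ C - a i := by
    intro i
    have e : C - a i = a i * (u i - 1) + ∑ j ∈ univ.erase i, a j * u j := by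
      rw [hC, ← Finset.add_sum_erase univ (fun j => a j * u j) (mem_univ i)]
      ring
    rw [e]
    refine dvd_add (dvd_mul_of_dvd_right (hu1 i) _) (Finset.dvd_sum fun j hj => ?_)
    exact dvd_mul_of_dvd_right (hu2 j i (fun h => (mem_erase.1 hj).1 h.symm)) _
  have hM0Z : (0 : ℤ) < M := by exact_mod_cast hM0
  obtain ⟨c₀, hc₀⟩ : ∃ c₀ : ℕ, (c₀ : ℤ) = C % M :=
    ⟨(C % M).toNat, Int.toNat_of_nonneg (Int.emod_nonneg _ hM0Z.ne')⟩
  have hc₀M : (M : ℤ) ∣ c₀ - C := by
    rw [hc₀]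
    have h1 : (M : ℤ) ∣ C - C % M := Int.dvd_self_sub_emod
    have e : C % M - C = -(C - C % M) := by ring
    rw [e]
    exact (dvd_neg).2 h1
  have hQMz : ∀ i, (Q i : ℤ) ∣ (M : ℤ) := fun i => by exact_mod_cast hQM i
  have hMWz : (M : ℤ) ∣ (W : ℤ) := by exact_mod_cast hMW
  have hc₀Q : ∀ i, (Q i : ℤ) ∣ c₀ - a i := by
    intro i
    have h1 := dvd_add ((hQMz i).trans hc₀M) (hCQ i)
    have e : (c₀ : ℤ) - C + (C - a i) = c₀ - a i := by ring
    rwa [e] at h1
  have hcop : ∀ d, ∀ h ∈ V d, IsCoprime ((c₀ : ℤ) + h) (M : ℤ) := by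
    intro d h hh
    obtain ⟨f, hf⟩ := hVf d h hh
    have hfQ : ∀ i, (Q i : ℤ) ∣ h - (if f i then b i - a i else 0) := by
      intro i
      have h1 : (Q i : ℤ) ∣ ∑ j, u j * (if f j then b j - a j else 0) -
          (if f i then b i - a i else 0) := by
        have e : ∑ j, u j * (if f j then b j - a j else 0) - (if f i then b i - a i else 0) =
            (u i - 1) * (if f i then b i - a i else 0) +
            ∑ j ∈ univ.erase i, u j * (if f j then b j - a j else 0) := by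
          rw [← Finset.add_sum_erase univ (fun j => u j * (if f j then b j - a j else 0))
            (mem_univ i)]
          ring
        rw [e]
        refine dvd_add (dvd_mul_of_dvd_left (hu1 i) _) (Finset.dvd_sum fun j hj => ?_)
        exact dvd_mul_of_dvd_left (hu2 j i (fun h => (mem_erase.1 hj).1 h.symm)) _
      have h2 := dvd_add (((hQMz i).trans hMWz).trans hf) h1
      have e : h - ∑ j, u j * (if f j then b j - a j else 0) +
          (∑ j, u j * (if f j then b j - a j else 0) - (if f i then b i - a i else 0)) =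
          h - (if f i then b i - a i else 0) := by
        ring
      rwa [e] at h2
    rw [hM]
    push_cast
    refine IsCoprime.prod_right fun i _ => ?_
    have h1 := dvd_add (hc₀Q i) (hfQ i)
    by_cases hfi : f i = true
    · rw [if_pos hfi] at h1
      refine cop_of_dvd (hb i) ?_
      have e : (c₀ : ℤ) - a i + (h - (b i - a i)) = c₀ + h - b i := by ring
      rwa [e] at h1
    · rw [if_neg hfi] at h1
      refine cop_of_dvd (ha i) ?_
      have e : (c₀ : ℤ) - a i + (h - 0) = c₀ + h - a i := by ring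
      rwa [e] at h1
  have hVcard : ∀ d, (V d).card = sc := by
    intro d
    show (B0.image (fun β => β + pos d)).card = sc
    rw [card_image_of_injective _ (add_left_injective _), hB0card]
  have hVsum : ∑ d, (V d).card ≤ K := by
    rw [Finset.sum_congr rfl fun d _ => hVcard d, sum_const, card_univ, smul_eq_mul, ← hmm]
  have hVadm : ∀ p : ℕ, p.Prime → ∃ a : ℤ, ∀ d, ∀ h ∈ V d, ¬ (p : ℤ) ∣ a + h := by
    intro p hp
    by_cases hpM : p ∣ M
    · refine ⟨c₀, fun d h hh hdv => ?_⟩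
      have hpMz : (p : ℤ) ∣ (M : ℤ) := by exact_mod_cast hpM
      have h1 := (hcop d h hh).isUnit_of_dvd' hdv hpMz
      have h2 : p = 1 := by exact_mod_cast Int.isUnit_iff_natAbs_eq.1 h1
      exact hp.one_lt.ne' h2
    · by_cases hpK : p ≤ K
      · refine ⟨1, fun d h hh hdv => ?_⟩
        obtain ⟨f, hf⟩ := hVf d h hh
        have hpW : (p : ℤ) ∣ (W : ℤ) := by
          have h2 : p ∣ W := dvd_mul_of_dvd_right (Nat.dvd_factorial hp.pos hpK) M
          exact_mod_cast h2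
        have h1 : (p : ℤ) ∣ ∑ i, u i * (if f i then b i - a i else 0) :=
          Finset.dvd_sum fun i _ => dvd_mul_of_dvd_left
            (hu4 i p hp hpK (fun h => hpM (h.trans (hQM i)))) _
        have h2 := dvd_add (hpW.trans hf) h1
        have e : h - ∑ i, u i * (if f i then b i - a i else 0) +
            ∑ i, u i * (if f i then b i - a i else 0) = h := by ring
        rw [e] at h2
        have h4 : (p : ℤ) ∣ 1 := (dvd_add_left h2).1 hdv
        have h5 : p ∣ 1 := by exact_mod_cast h4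
        exact hp.one_lt.ne' (Nat.dvd_one.1 h5)
      · exact Pool.Agent.H21.LP.adm_big K V hVsum p hp hpK
  obtain ⟨T, μ, hT, hμ, hsum, hne⟩ := hcells (Lf t) V hmm.symm hVcard (by
      intro d d' hdd
      rw [disjoint_left]
      intro h hh hh'
      obtain ⟨β, hβ, rfl⟩ := mem_cell.1 hh
      obtain ⟨β', hβ', he⟩ := mem_cell.1 hh'
      exact hposD d d' hdd β hβ β' hβ' he.symm)
    hVadm M c₀ hM0 hcop D N0
  -- double counting
  have h1 : ∑ N ∈ T, μ N * ∑ d, (if ∃ y ∈ V d, PP N y then (1 : ℝ) else 0) ≤ 1 := by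
    calc ∑ N ∈ T, μ N * ∑ d, (if ∃ y ∈ V d, PP N y then (1 : ℝ) else 0) ≤
        ∑ N ∈ T, μ N * 1 := by
          refine Finset.sum_le_sum fun N hN => ?_
          refine mul_le_mul_of_nonneg_left ?_ (hμ N)
          obtain ⟨h2, h3, h4⟩ := hT N hN
          have h3M : (M : ℤ) ∣ N - c₀ := by
            have h5 : (c₀ : ℤ) ≡ (N : ℤ) [ZMOD M] := (Int.natCast_modEq_iff.2 h3).symm
            exact (Int.modEq_iff_dvd).1 h5
          have h3Q : ∀ i < t, (N : ℤ) ≡ a' i [ZMOD Q' i] := by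
            intro i hi
            rw [hQ' i hi, ha' i hi, Int.modEq_comm, Int.modEq_iff_dvd]
            have h6 := dvd_add ((hQMz ⟨i, hi⟩).trans h3M) (hc₀Q ⟨i, hi⟩)
            have e : (N : ℤ) - c₀ + (c₀ - a ⟨i, hi⟩) = N - a ⟨i, hi⟩ := by ring
            rwa [e] at h6
          have h5 := hpot N h2.le h3Q (by
            intro y hy hp
            obtain ⟨d, hd⟩ := h4 y hy hp
            obtain ⟨β, hβ, he⟩ := mem_cell.1 hd
            exact ⟨d, β, hβ, he.symm⟩)
          rw [← Finset.sum_filter, sum_const, nsmul_eq_mul, mul_one]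
          have h6 : (univ.filter (fun d => ∃ y ∈ V d, PP N y)).card ≤ 1 := by
            rw [card_le_one]
            intro d hd d' hd'
            rw [mem_filter] at hd hd'
            obtain ⟨y, hy, hyp⟩ := hd.2
            obtain ⟨y', hy', hyp'⟩ := hd'.2
            obtain ⟨β, hβ, rfl⟩ := mem_cell.1 hy
            obtain ⟨β', hβ', rfl⟩ := mem_cell.1 hy'
            exact h5 d d' ⟨β, hβ, hyp⟩ ⟨β', hβ', hyp'⟩
          exact_mod_cast h6
      _ = 1 := by rw [← Finset.sum_mul, hsum, one_mul]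
  have h2 : ∑ N ∈ T, μ N * ∑ d, (if ∃ y ∈ V d, PP N y then (1 : ℝ) else 0) =
      ∑ d, ∑ N ∈ T.filter (fun N => ∃ y ∈ V d, PP N y), μ N := by
    simp_rw [Finset.mul_sum, Finset.sum_filter]
    rw [Finset.sum_comm]
    refine Finset.sum_congr rfl fun d _ => Finset.sum_congr rfl fun N _ => ?_
    split_ifs
    · ring
    · ring
  have h3 : ∑ _d : Lf t, (1 / 6 : ℝ) ≤ ∑ d, ∑ N ∈ T.filter (fun N => ∃ y ∈ V d, PP N y), μ N :=
    Finset.sum_le_sum fun d _ => hne d
  rw [sum_const, card_univ, card_Lf, nsmul_eq_mul] at h3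
  have h4 : ((2 ^ t : ℕ) : ℝ) * (1 / 6) ≤ 1 := by linarith
  have h5 : (6 : ℝ) < ((2 ^ t : ℕ) : ℝ) := by exact_mod_cast ht
  linarith

/-- every pair of reduced classes modulo `Q` is the pair of classes of two consecutive primes, infinitely often,
with the gap in every long interval -/
def GoodPair (Q : ℕ) : Prop := ∀ a b : ℤ, IsCoprime a (Q : ℤ) → IsCoprime b (Q : ℤ) →
  ∃ C : ℕ, ∀ v : ℕ, {n : ℕ | |(gap n : ℤ) - v| ≤ C ∧ (Nat.nth Nat.Prime n : ℤ) ≡ a [ZMOD Q] ∧
    (Nat.nth Nat.Prime (n + 1) : ℤ) ≡ b [ZMOD Q]}.Infinite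

theorem badP_of_not {Q : ℕ} {a b : ℤ}
    (h : ¬ ∃ C : ℕ, ∀ v : ℕ, {n : ℕ | |(gap n : ℤ) - v| ≤ C ∧
      (Nat.nth Nat.Prime n : ℤ) ≡ a [ZMOD Q] ∧
      (Nat.nth Nat.Prime (n + 1) : ℤ) ≡ b [ZMOD Q]}.Infinite) : BadP Q a b := by
  intro C
  push Not at h
  obtain ⟨v, hv⟩ := h C
  obtain ⟨n₀, hn₀⟩ := hv.bddAbove
  refine ⟨v, Nat.nth Nat.Prime (n₀ + 1), ?_⟩
  rintro x y hx ⟨h1, h2, h3, h4, h5, h6, h7⟩
  obtain ⟨n, hn⟩ : ∃ n, Nat.nth Nat.Prime n = x := ⟨_, Nat.nth_count h1⟩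
  have hn1 : Nat.nth Nat.Prime (n + 1) = y := gap_next hn h2 h3 h4
  have h8 : n₀ + 1 ≤ n := by
    rw [← hn] at hx
    exact (Nat.nth_strictMono Nat.infinite_setOfPred_prime).le_iff_le.1 hx
  have h9 : n ≤ n₀ := by
    refine hn₀ ?_
    refine ⟨?_, ?_, ?_⟩
    · have e : ((gap n : ℕ) : ℤ) = (y : ℤ) - x := by
        unfold gap
        rw [hn1, hn]
        omega
      rw [e]
      exact h7
    · rw [hn]
      exact h5
    · rw [hn1]
      exact h6
  omega

theorem pairs_three (Q : Fin 3 → ℕ) (hQ : ∀ i, 0 < Q i)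
    (hQQ : ∀ i j, i ≠ j → Nat.Coprime (Q i) (Q j)) : ∃ i, GoodPair (Q i) := by
  by_contra hcon
  push Not at hcon
  unfold GoodPair at hcon
  have h : ∀ i, ∃ a b : ℤ, IsCoprime a (Q i : ℤ) ∧ IsCoprime b (Q i : ℤ) ∧ BadP (Q i) a b := by
    intro i
    have h1 := hcon i
    by_contra h2
    apply h1
    intro a b ha hb
    by_contra h3
    exact h2 ⟨a, b, ha, hb, badP_of_not h3⟩
  choose a b ha hb hbad using h
  exact badP_false 3 (by norm_num) Q hQ hQQ a b ha hb hbad

/-- for all primes `p` but at most two, every `e` and every pair of classes modulo `p ^ e` prime to `p` -/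
theorem pairs_primes : ∃ E : Finset ℕ, E.card ≤ 2 ∧ ∀ p : ℕ, p.Prime → p ∉ E →
    ∀ (e : ℕ) (a b : ℤ), ¬ (p : ℤ) ∣ a → ¬ (p : ℤ) ∣ b → ∃ C : ℕ, ∀ v : ℕ,
      {n : ℕ | |(gap n : ℤ) - v| ≤ C ∧ (Nat.nth Nat.Prime n : ℤ) ≡ a [ZMOD (p ^ e : ℕ)] ∧
        (Nat.nth Nat.Prime (n + 1) : ℤ) ≡ b [ZMOD (p ^ e : ℕ)]}.Infinite := by
  classical
  set S : Set ℕ := {p | p.Prime ∧ ∃ e : ℕ, ¬ GoodPair (p ^ e)} with hS
  have hfin : ∀ F : Finset ℕ, (F : Set ℕ) ⊆ S → F.card ≤ 2 := by
    intro F hF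
    by_contra hcon
    push Not at hcon
    obtain ⟨G, hGF, hGc⟩ := Finset.exists_subset_card_eq (show 3 ≤ F.card by omega)
    have h1 : ∀ i : Fin 3, ((Finset.equivFinOfCardEq hGc).symm i).1 ∈ S := fun i =>
      hF (hGF ((Finset.equivFinOfCardEq hGc).symm i).2)
    choose e he using fun i => (h1 i).2
    obtain ⟨i, hi⟩ := pairs_three
      (fun i => ((Finset.equivFinOfCardEq hGc).symm i).1 ^ e i) (fun i => pow_pos (h1 i).1.pos _)
      (fun i j hij => by
        refine Nat.Coprime.pow _ _ ((Nat.coprime_primes (h1 i).1 (h1 j).1).2 ?_)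
        intro h
        exact hij ((Finset.equivFinOfCardEq hGc).symm.injective (Subtype.ext h)))
    exact he i hi
  have hSf : S.Finite := by
    by_contra hinf
    obtain ⟨F, hF, hFc⟩ := Set.Infinite.exists_subset_card_eq hinf 3
    have := hfin F hF
    omega
  refine ⟨hSf.toFinset, hfin _ (by simp), fun p hp hpE e a b ha hb => ?_⟩
  have hG : GoodPair (p ^ e) := by
    by_contra hcon
    exact hpE (hSf.mem_toFinset.2 ⟨hp, e, hcon⟩)
  have hcop : ∀ z : ℤ, ¬ (p : ℤ) ∣ z → IsCoprime z ((p ^ e : ℕ) : ℤ) := by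
    intro z hz
    push_cast
    refine IsCoprime.pow_right ?_
    refine IsCoprime.symm ?_
    exact ((Nat.prime_iff_prime_int.1 hp).coprime_iff_not_dvd).2 hz
  exact hG a b (hcop a ha) (hcop b hb)

end Pool.Agent.H21.PC
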