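import Pool.Agent.H21.CG.Tree

/-!
MP_8923e7_nt, PC (pairs of consecutive primes in prescribed residue classes).  The binary tree of counterexamples.
-/

namespace Pool.Agent.H21.PC

open Finset Pool.Agent.H30.CP Pool.Agent.H21.CG

/-- `x < y` are consecutive primes in the classes `a`, `b` modulo `Q`, and `|y - x - v| ≤ C` -/
def PairAt (Q : ℕ) (a b : ℤ) (C v x y : ℕ) : Prop :=
  x.Prime ∧ y.Prime ∧ x < y ∧ (∀ r : ℕ, x < r → r < y → ¬ r.Prime) ∧ (x : ℤ) ≡ a [ZMOD Q] ∧
    (y : ℤ) ≡ b [ZMOD Q] ∧ |((y : ℤ) - x) - v| ≤ C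

/-- for every `C` there is `v` with only finitely many pairs -/
def BadP (Q : ℕ) (a b : ℤ) : Prop :=
  ∀ C : ℕ, ∃ v X : ℕ, ∀ x y : ℕ, X ≤ x → ¬ PairAt Q a b C v x y

/-- the leaves of the binary tree of height `n` -/
def Lf : ℕ → Type
  | 0 => Unit
  | n + 1 => Bool × Lf n

instance instFintypeLf : ∀ n, Fintype (Lf n)
  | 0 => inferInstanceAs (Fintype Unit)
  | n + 1 =>
    haveI := instFintypeLf n
    inferInstanceAs (Fintype (Bool × Lf n))

instance instDecLf : ∀ n, DecidableEq (Lf n)
  | 0 => inferInstanceAs (DecidableEq Unit)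
  | n + 1 =>
    haveI := instDecLf n
    inferInstanceAs (DecidableEq (Bool × Lf n))

theorem card_Lf : ∀ n, Fintype.card (Lf n) = 2 ^ n
  | 0 => rfl
  | n + 1 => by
    have h : Fintype.card (Lf (n + 1)) = Fintype.card (Bool × Lf n) := rfl
    rw [h, Fintype.card_prod, Fintype.card_bool, card_Lf n, pow_succ, mul_comm]

/-- a large number in the bad window and in a given class -/
theorem bad_sep {Q : ℕ} {a b : ℤ} (hbad : BadP Q a b) (W : ℕ) (hW : 0 < W) (κ : ℤ) (R G : ℕ) :
    ∃ M : ℤ, (W : ℤ) ∣ M - κ ∧ (G : ℤ) ≤ M ∧ ∃ X : ℕ, ∀ x y : ℕ, X ≤ x → x.Prime → y.Prime →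
      x < y → (∀ r : ℕ, x < r → r < y → ¬ r.Prime) → (x : ℤ) ≡ a [ZMOD Q] →
      (y : ℤ) ≡ b [ZMOD Q] → |((y : ℤ) - x) - M| ≤ R → False := by
  obtain ⟨v, X, h⟩ := hbad (G + W + R)
  have hWZ : (0 : ℤ) < W := by exact_mod_cast hW
  obtain ⟨v', hv'⟩ : ∃ v' : ℤ, v' = max (v : ℤ) G := ⟨_, rfl⟩
  have h0 : 0 ≤ (κ - v') % W := Int.emod_nonneg _ hWZ.ne'
  have h1 : (κ - v') % W < W := Int.emod_lt_of_pos _ hWZ
  have h2 : (G : ℤ) ≤ v' := hv' ▸ le_max_right _ _
  have h3 : (v : ℤ) ≤ v' := hv' ▸ le_max_left _ _
  have h4 : v' ≤ v + G := by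
    rw [hv']
    exact max_le (by omega) (by omega)
  refine ⟨v' + (κ - v') % W, ?_, by linarith, X, ?_⟩
  · have e : v' + (κ - v') % W - κ = -((κ - v') - (κ - v') % W) := by ring
    rw [e]
    exact (dvd_neg).2 Int.dvd_self_sub_emod
  · intro x y hx h5 h6 h7 h8 h9 h10 h11
    refine h x y hx ⟨h5, h6, h7, h8, h9, h10, ?_⟩
    rw [abs_le] at h11 ⊢
    push_cast
    constructor <;> linarith

/-- at most one cell contains a prime -/
def Pot1 (Q : ℕ → ℕ) (a : ℕ → ℤ) (n : ℕ) (B0 : Finset ℤ) {ι : Type} (pos : ι → ℤ) : Prop :=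
  ∃ D N0 : ℕ, ∀ N ≥ N0, (∀ i < n, (N : ℤ) ≡ a i [ZMOD Q i]) →
    (∀ y : ℤ, |y| ≤ D → PP N y → ∃ d, ∃ β ∈ B0, y = β + pos d) →
    ∀ d d', (∃ β ∈ B0, PP N (β + pos d)) → (∃ β ∈ B0, PP N (β + pos d')) → d = d'

theorem pot1_exists (t : ℕ) (Q : ℕ → ℕ) (a b : ℕ → ℤ) (u : ℕ → ℤ)
    (hbad : ∀ i < t, BadP (Q i) (a i) (b i))
    (W : ℕ) (hW : 0 < W) (hQW : ∀ i < t, Q i ∣ W)
    (hu1 : ∀ i < t, (Q i : ℤ) ∣ u i - 1) (hu2 : ∀ i < t, ∀ j < t, j ≠ i → (Q j : ℤ) ∣ u i)
    (B0 : Finset ℤ) (hB0 : ∀ β ∈ B0, (W : ℤ) ∣ β) :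
    ∀ n ≤ t, ∃ pos : Lf n → ℤ, Pot1 Q a n B0 pos ∧
      (∀ d, ∃ f : ℕ → Bool, (W : ℤ) ∣ pos d -
        ∑ i ∈ range n, u i * (if f i then b i - a i else 0)) ∧
      ∀ d d', d ≠ d' → ∀ β ∈ B0, ∀ β' ∈ B0, β + pos d ≠ β' + pos d' := by
  classical
  intro n
  have hQWz : ∀ i < t, (Q i : ℤ) ∣ (W : ℤ) := fun i hi => by exact_mod_cast hQW i hi
  induction n with
  | zero =>
    intro _
    refine ⟨fun _ => 0, ⟨0, 0, fun N _ _ _ d d' _ _ => Subsingleton.elim (α := Unit) d d'⟩,
      fun _ => ⟨fun _ => false, by simp⟩, fun d d' hdd => ?_⟩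
    exact absurd (Subsingleton.elim (α := Unit) d d') hdd
  | succ n ih =>
    intro hnt
    have hn : n < t := hnt
    obtain ⟨pos, ⟨D, N0, hpot⟩, hposf, hposD⟩ := ih hn.le
    -- residues of the positions of the subtree
    have hposQ : ∀ d, (Q n : ℤ) ∣ pos d := by
      intro d
      obtain ⟨f, hf⟩ := hposf d
      have h1 : (Q n : ℤ) ∣ ∑ i ∈ range n, u i * (if f i then b i - a i else 0) :=
        Finset.dvd_sum fun i hi => dvd_mul_of_dvd_left
          (hu2 i (lt_trans (mem_range.1 hi) hn) n hn (mem_range.1 hi).ne') _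
      have h2 := dvd_add ((hQWz n hn).trans hf) h1
      have e : pos d - ∑ i ∈ range n, u i * (if f i then b i - a i else 0) +
          ∑ i ∈ range n, u i * (if f i then b i - a i else 0) = pos d := by
        ring
      rwa [e] at h2
    -- a bound for the tree
    set R : ℕ := ∑ d : Lf n, ∑ β ∈ B0, (β + pos d).natAbs with hR
    have hRb : ∀ d, ∀ β ∈ B0, |β + pos d| ≤ R := by
      intro d β hβ
      have h1 : (β + pos d).natAbs ≤ ∑ β ∈ B0, (β + pos d).natAbs :=
        Finset.single_le_sum (f := fun β : ℤ => (β + pos d).natAbs) (fun _ _ => Nat.zero_le _) hβ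
      have h2 : ∑ β ∈ B0, (β + pos d).natAbs ≤ R :=
        Finset.single_le_sum (f := fun d => ∑ β ∈ B0, (β + pos d).natAbs)
          (fun _ _ => Nat.zero_le _) (Finset.mem_univ d)
      have h3 : (β + pos d).natAbs ≤ R := by omega
      rw [Int.abs_eq_natAbs]
      exact_mod_cast h3
    obtain ⟨M, hMW, hMG, X, hX⟩ := bad_sep (hbad n hn) W hW (u n * (b n - a n)) (2 * R)
      (2 * R + D + 1)
    obtain ⟨M', rfl⟩ : ∃ M' : ℕ, M = M' := ⟨M.toNat, (Int.toNat_of_nonneg (by
      have : (0 : ℤ) ≤ ((2 * R + D + 1 : ℕ) : ℤ) := Int.natCast_nonneg _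
      linarith)).symm⟩
    push_cast at hMG
    have hMQ : ∀ i < n, (Q i : ℤ) ∣ (M' : ℤ) := by
      intro i hi
      have h2 := dvd_add ((hQWz i (lt_trans hi hn)).trans hMW)
        (dvd_mul_of_dvd_left (hu2 n hn i (lt_trans hi hn) hi.ne) (b n - a n))
      have e : (M' : ℤ) - u n * (b n - a n) + u n * (b n - a n) = M' := by ring
      rwa [e] at h2
    have hMn : (Q n : ℤ) ∣ (M' : ℤ) - (b n - a n) := by
      have h2 := dvd_add ((hQWz n hn).trans hMW) (dvd_mul_of_dvd_left (hu1 n hn) (b n - a n))
      have e : (M' : ℤ) - u n * (b n - a n) + (u n - 1) * (b n - a n) = M' - (b n - a n) := by ring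
      rwa [e] at h2
    let pos' : Lf (n + 1) → ℤ := fun o => (if o.1 then (M' : ℤ) else 0) + pos o.2
    have hp : ∀ (ε : Bool) (d : Lf n), pos' ((ε, d) : Bool × Lf n) =
        (if ε then (M' : ℤ) else 0) + pos d := fun _ _ => rfl
    have hcases : ∀ o : Lf (n + 1), ∃ (ε : Bool) (d : Lf n), o = ((ε, d) : Bool × Lf n) :=
      fun o => ⟨o.1, o.2, rfl⟩
    refine ⟨pos', ⟨D + M' + 2 * R, N0 + X + D + M' + 2 * R, ?_⟩, ?_, ?_⟩
    · intro N hN hNQ hex
      have hNbig : (N0 : ℤ) + X + D + M' + 2 * R ≤ N := by exact_mod_cast hN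
      -- the subtrees
      have hsub : ∀ ε : Bool, ∀ d d' : Lf n,
          (∃ β ∈ B0, PP N (β + ((if ε then (M' : ℤ) else 0) + pos d))) →
          (∃ β ∈ B0, PP N (β + ((if ε then (M' : ℤ) else 0) + pos d'))) → d = d' := by
        intro ε d d' h1 h2
        obtain ⟨e, he⟩ : ∃ e : ℕ, (e : ℤ) = (if ε then (M' : ℤ) else 0) := by
          cases ε
          · exact ⟨0, by simp⟩
          · exact ⟨M', by simp⟩
        have heM : e ≤ M' := by
          cases ε
          · simp only [Bool.false_eq_true, if_false] at he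
            omega
          · simp only [if_true] at he
            omega
        have hPP : ∀ y : ℤ, PP (N + e) y ↔ PP N (e + y) := by
          intro y
          unfold PP
          have e1 : ((N + e : ℕ) : ℤ) + y = (N : ℤ) + (e + y) := by
            push_cast
            ring
          rw [e1]
        rw [← he] at h1 h2
        refine hpot (N + e) (by omega) ?_ ?_ d d' ?_ ?_
        · intro i hi
          have h3 : (Q i : ℤ) ∣ (e : ℤ) := by
            rw [he]
            cases ε
            · simp
            · simpa using hMQ i hi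
          have h4 := (hNQ i (lt_trans hi (Nat.lt_succ_self n))).add
            ((Int.modEq_zero_iff_dvd).2 h3)
          rw [add_zero] at h4
          push_cast
          exact h4
        · intro y hy hpy
          rw [hPP] at hpy
          have hy' := abs_le.1 hy
          obtain ⟨o, β, hβ, ho⟩ := hex (e + y) (by
            rw [abs_le]
            push_cast
            constructor <;> omega) hpy
          obtain ⟨ε', d₁, rfl⟩ := hcases o
          rw [hp] at ho
          have h5 := abs_le.1 (hRb d₁ β hβ)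
          have h6 : (if ε' then (M' : ℤ) else 0) = e := by
            by_contra hne
            cases ε <;> cases ε' <;> simp only [Bool.false_eq_true, if_false, if_true] at he hne ho
            · exact hne he.symm
            · omega
            · omega
            · exact hne he.symm
          rw [h6] at ho
          exact ⟨d₁, β, hβ, by linarith⟩
        · obtain ⟨β, hβ, h3⟩ := h1
          refine ⟨β, hβ, ?_⟩
          rw [hPP]
          have e1 : (e : ℤ) + (β + pos d) = β + (e + pos d) := by ring
          rw [e1]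
          exact h3
        · obtain ⟨β, hβ, h3⟩ := h2
          refine ⟨β, hβ, ?_⟩
          rw [hPP]
          have e1 : (e : ℤ) + (β + pos d') = β + (e + pos d') := by ring
          rw [e1]
          exact h3
      -- the two subtrees do not both contain a prime
      have hcross : ∀ d d' : Lf n, (∃ β ∈ B0, PP N (β + (0 + pos d))) →
          (∃ β ∈ B0, PP N (β + ((M' : ℤ) + pos d'))) → False := by
        rintro d d' ⟨β₁, hβ₁, h1⟩ ⟨β₂, hβ₂, h2⟩
        -- the largest prime of the first cells, the smallest of the second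
        obtain ⟨q, hq, hqmax⟩ := ((Icc (-(R : ℤ)) R).filter (fun y => PP N y)).exists_max_image id
          ⟨β₁ + (0 + pos d), by
            rw [mem_filter, mem_Icc, zero_add]
            have h3 := abs_le.1 (hRb d β₁ hβ₁)
            rw [zero_add] at h1
            exact ⟨⟨h3.1, h3.2⟩, h1⟩⟩
        obtain ⟨q', hq', hqmin⟩ := ((Icc ((M' : ℤ) - R) (M' + R)).filter
          (fun y => PP N y)).exists_min_image id ⟨β₂ + ((M' : ℤ) + pos d'), by
            rw [mem_filter, mem_Icc]
            have h3 := abs_le.1 (hRb d' β₂ hβ₂)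
            exact ⟨⟨by linarith, by linarith⟩, h2⟩⟩
        rw [mem_filter, mem_Icc] at hq hq'
        have hwin : ∀ y : ℤ, |y| ≤ ((D + M' + 2 * R : ℕ) : ℤ) → PP N y →
            (|y| ≤ R ∧ (Q n : ℤ) ∣ y) ∨ (|y - M'| ≤ R ∧ (Q n : ℤ) ∣ y - M') := by
          intro y hy hpy
          obtain ⟨o, β, hβ, ho⟩ := hex y hy hpy
          obtain ⟨ε', d₁, rfl⟩ := hcases o
          rw [hp] at ho
          have h5 := hRb d₁ β hβ
          have h6 : (Q n : ℤ) ∣ β + pos d₁ := dvd_add ((hQWz n hn).trans (hB0 β hβ)) (hposQ d₁)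
          cases ε'
          · left
            simp only [Bool.false_eq_true, if_false, zero_add] at ho
            rw [ho]
            exact ⟨h5, h6⟩
          · right
            simp only [if_true] at ho
            have e1 : y - M' = β + pos d₁ := by
              rw [ho]
              ring
            rw [e1]
            exact ⟨h5, h6⟩
        have hqp : ((N : ℤ) + q).toNat.Prime := hq.2
        have hqp' : ((N : ℤ) + q').toNat.Prime := hq'.2
        have e0 : ((((N : ℤ) + q).toNat : ℕ) : ℤ) = N + q := Int.toNat_of_nonneg (by omega)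
        have e1 : ((((N : ℤ) + q').toNat : ℕ) : ℤ) = N + q' := Int.toNat_of_nonneg (by omega)
        refine hX (((N : ℤ) + q).toNat) (((N : ℤ) + q').toNat) (by omega) hqp hqp' (by omega)
          ?_ ?_ ?_ ?_
        · intro r hr1 hr2 hr
          have h1r : PP N ((r : ℤ) - N) := by
            unfold PP
            rw [add_sub_cancel, Int.toNat_natCast]
            exact hr
          rcases hwin ((r : ℤ) - N) (by
            rw [abs_le]
            push_cast
            constructor <;> omega) h1r with ⟨h3, -⟩ | ⟨h3, -⟩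
          · have h3' := abs_le.1 h3
            have h4 := hqmax ((r : ℤ) - N) (by
              rw [mem_filter, mem_Icc]
              exact ⟨⟨h3'.1, h3'.2⟩, h1r⟩)
            simp only [id] at h4
            omega
          · have h3' := abs_le.1 h3
            have h4 := hqmin ((r : ℤ) - N) (by
              rw [mem_filter, mem_Icc]
              exact ⟨⟨by linarith, by linarith⟩, h1r⟩)
            simp only [id] at h4
            omega
        · rw [e0]
          have h3 : (Q n : ℤ) ∣ q := by
            rcases hwin q (by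
              rw [abs_le]
              push_cast
              constructor <;> omega) hq.2 with ⟨-, h3⟩ | ⟨h3, -⟩
            · exact h3
            · have h3' := abs_le.1 h3
              omega
          have h4 := (hNQ n (Nat.lt_succ_self n)).add ((Int.modEq_zero_iff_dvd).2 h3)
          rwa [add_zero] at h4
        · rw [e1]
          have h3 : (Q n : ℤ) ∣ q' - M' := by
            rcases hwin q' (by
              rw [abs_le]
              push_cast
              constructor <;> omega) hq'.2 with ⟨h3, -⟩ | ⟨-, h3⟩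
            · have h3' := abs_le.1 h3
              omega
            · exact h3
          have h4 := (hNQ n (Nat.lt_succ_self n)).add (((Int.modEq_zero_iff_dvd).2 h3).add
            ((Int.modEq_zero_iff_dvd).2 hMn))
          rw [add_zero] at h4
          have h5 := h4.add_right (b n - a n)
          have e2 : (N : ℤ) + (q' - M' + (M' - (b n - a n))) + (b n - a n) = N + q' := by ring
          have e3 : a n + 0 + (b n - a n) = b n := by ring
          rw [e2, e3] at h5
          exact h5
        · rw [e0, e1, abs_le]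
          push_cast
          constructor <;> omega
      rintro o o' h1 h2
      obtain ⟨ε, d, rfl⟩ := hcases o
      obtain ⟨ε', d', rfl⟩ := hcases o'
      rw [hp] at h1 h2
      cases ε <;> cases ε'
      · have h3 := hsub false d d' h1 h2
        rw [h3]
      · exfalso
        simp only [Bool.false_eq_true, if_false, if_true] at h1 h2
        exact hcross d d' h1 h2
      · exfalso
        simp only [Bool.false_eq_true, if_false, if_true] at h1 h2
        exact hcross d' d h2 h1
      · have h3 := hsub true d d' h1 h2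
        rw [h3]
    · intro o
      obtain ⟨ε, d, rfl⟩ := hcases o
      obtain ⟨f, hf⟩ := hposf d
      refine ⟨fun i => if i = n then ε else f i, ?_⟩
      beta_reduce
      rw [hp, Finset.sum_range_succ, if_pos rfl]
      have h3 : ∑ i ∈ range n, u i * (if (if i = n then ε else f i) then b i - a i else 0) =
          ∑ i ∈ range n, u i * (if f i then b i - a i else 0) :=
        Finset.sum_congr rfl fun i hi => by rw [if_neg (mem_range.1 hi).ne]
      rw [h3]
      cases ε
      · simp only [Bool.false_eq_true, if_false, zero_add, mul_zero, add_zero]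
        exact hf
      · simp only [if_true]
        have e : (M' : ℤ) + pos d - (∑ i ∈ range n, u i * (if f i then b i - a i else 0) +
            u n * (b n - a n)) = (M' - u n * (b n - a n)) +
            (pos d - ∑ i ∈ range n, u i * (if f i then b i - a i else 0)) := by ring
        rw [e]
        exact dvd_add hMW hf
    · intro o o' hoo β hβ β' hβ' he
      obtain ⟨ε, d, rfl⟩ := hcases o
      obtain ⟨ε', d', rfl⟩ := hcases o'
      rw [hp, hp] at he
      have h5 := abs_le.1 (hRb d β hβ)
      have h6 := abs_le.1 (hRb d' β' hβ')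
      cases ε <;> cases ε' <;> simp only [Bool.false_eq_true, if_false, if_true] at he
      · refine hposD d d' (fun h => hoo (by rw [h])) β hβ β' hβ' (by linarith)
      · omega
      · omega
      · refine hposD d d' (fun h => hoo (by rw [h])) β hβ β' hβ' (by linarith)

end Pool.Agent.H21.PC
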